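import Pool.Agent.R743.PB.Stm
import Pool.Agent.R743.PB.Pair
import Pool.Agent.R743.PB.Stab
import Pool.Agent.R743.PB.Dbl
import Pool.Agent.R743.PB.Br
import Pool.Agent.R743.PB.Cov
import Pool.Agent.R743.PB.Top
import Pool.Agent.R743.PB.Stm2
import Pool.Agent.R743.PB.FA
import Pool.Agent.R743.PB.FW
import Pool.Agent.R743.PB.FEvA
import Pool.Agent.R743.PB.FExt
import Pool.Agent.R743.PB.FV
import Pool.Agent.R743.PB.FEvE
import Pool.Agent.R743.PB.FModel
import Pool.Agent.R743.PB.FRinv
import Pool.Agent.R743.PB.FQuad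
import Pool.Agent.R743.PB.FPser
import Pool.Agent.R743.PB.FFc
import Pool.Agent.R743.PB.FFix
import Pool.Agent.R743.PB.FGerm

/-!
# MP_729182_ag: paired branches of the double point curve need not be topologically equivalent

The germ `Φ = (x, y³ - x (1 + x + x²) y, y⁴ - x (1 + x²) y²)` is finitely determined (and stable off `0`), its
double point curve has the branches `y² = x` and `y² = x³`, they are paired by the involution, and no
homeomorphism germ of `(ℂ², 0)` maps one to the other.
-/

set_option autoImplicit false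

open Filter Topology Set
open Pool.Agent.R743.PB

namespace Pool.Agent.Results.MP_729182_ag.PairedBranches

/-- the shear mapping the line `{u = 0}` to the parabola -/
def shear : C2 ≃ₜ C2 where
  toFun p := (p.1 + p.2 ^ 2, p.2)
  invFun p := (p.1 - p.2 ^ 2, p.2)
  left_inv p := by simp
  right_inv p := by simp
  continuous_toFun := by fun_prop
  continuous_invFun := by fun_prop

theorem not_equiv (hT : S_TOP) : ¬ TopEquiv D2 D3 := by
  rintro ⟨h, h0, h00, hh⟩
  apply hT
  refine ⟨shear.toOpenPartialHomeomorph.trans h, ?_, ?_, ?_⟩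
  · rw [OpenPartialHomeomorph.trans_source]
    refine ⟨trivial, ?_⟩
    change shear 0 ∈ h.source
    have : shear 0 = 0 := by simp [shear]
    rw [this]
    exact h0
  · change h (shear 0) = 0
    have : shear 0 = 0 := by simp [shear]
    rw [this, h00]
  · have hc : Tendsto shear (𝓝 0) (𝓝 0) := by
      have := shear.continuous.tendsto 0
      have h1 : shear 0 = 0 := by simp [shear]
      rwa [h1] at this
    filter_upwards [hc.eventually hh] with p hp
    change (p.1 = 0 ↔ h (shear p) ∈ D3)
    rw [← hp]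
    change (p.1 = 0 ↔ p.2 ^ 2 = p.1 + p.2 ^ 2)
    constructor
    · intro h1
      rw [h1, zero_add]
    · intro h1
      exact (add_eq_right.1 h1.symm)

theorem finDet : FinDet Φ :=
  fd (fix (model algA wA ext3 (vE wA) (evE wA evA (vE wA))) rinv quad qv pser fc)

theorem result : AnalyticAt ℂ Φ 0 ∧ Φ 0 = 0 ∧ FinDet Φ ∧ StableOff Φ ∧ IsDbl Φ (D1 ∪ D2 ∪ D3) ∧
    IsBranch D2 ∧ IsBranch D3 ∧ Paired Φ D2 D3 ∧ ¬ TopEquiv D2 D3 := by
  have hP := pair
  obtain ⟨h1, h2, h3, h4⟩ := br hP
  exact ⟨h1, by simp [Φ], finDet, stab hP, dbl hP, h2, h3, h4, not_equiv (top cov)⟩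

end Pool.Agent.Results.MP_729182_ag.PairedBranches
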